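import Pool.Agent.H54.C1.IDN
import Pool.Agent.H22.KL.GRAM

/-! Row HW of the board `c1_modules` (MP_ee74d2_an). -/

set_option autoImplicit false

namespace Pool.Agent.H54.C1

open MeasureTheory Set Filter FourierTransform Pool.Agent.H82.KL Pool.Agent.H94.C1
open Pool.Agent.H22.KL (norm_e e_add continuous_e continuous_U)
open scoped ENNReal NNReal Topology

theorem enorm_add_sq (v w : ℂ) : ‖v + w‖ₑ ^ 2 ≤ 2 * ‖v‖ₑ ^ 2 + 2 * ‖w‖ₑ ^ 2 := by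
  have h1 : ‖v + w‖₊ ^ 2 ≤ 2 * ‖v‖₊ ^ 2 + 2 * ‖w‖₊ ^ 2 := by
    rw [← NNReal.coe_le_coe]
    push_cast
    have h2 := norm_add_le v w
    have h3 : ‖v + w‖ ^ 2 ≤ (‖v‖ + ‖w‖) ^ 2 := pow_le_pow_left₀ (norm_nonneg _) h2 2
    nlinarith [sq_nonneg (‖v‖ - ‖w‖)]
  have h4 : ((‖v + w‖₊ ^ 2 : ℝ≥0) : ℝ≥0∞) ≤ ((2 * ‖v‖₊ ^ 2 + 2 * ‖w‖₊ ^ 2 : ℝ≥0) : ℝ≥0∞) :=
    ENNReal.coe_le_coe.2 h1
  push_cast at h4
  exact h4

theorem enorm_sum_sq {d : ℕ} (v : Fin d → ℂ) :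
    ‖∑ j, v j‖ₑ ^ 2 ≤ (d : ℝ≥0∞) * ∑ j, ‖v j‖ₑ ^ 2 := by
  have h1 : ‖∑ j, v j‖₊ ^ 2 ≤ (d : ℝ≥0) * ∑ j, ‖v j‖₊ ^ 2 := by
    rw [← NNReal.coe_le_coe]
    push_cast
    have h2 := norm_sum_le Finset.univ v
    calc ‖∑ j, v j‖ ^ 2 ≤ (∑ j, ‖v j‖) ^ 2 := pow_le_pow_left₀ (norm_nonneg _) h2 2
      _ ≤ _ := by
        have h3 := sq_sum_le_card_mul_sum_sq (s := (Finset.univ : Finset (Fin d)))
          (f := fun j => ‖v j‖)
        simpa using h3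
  have h4 : ((‖∑ j, v j‖₊ ^ 2 : ℝ≥0) : ℝ≥0∞) ≤ (((d : ℝ≥0) * ∑ j, ‖v j‖₊ ^ 2 : ℝ≥0) : ℝ≥0∞) :=
    ENNReal.coe_le_coe.2 h1
  push_cast at h4
  exact h4

theorem continuous_hy {d : ℕ} : Continuous (hy (d := d)) := by
  unfold hy
  fun_prop

theorem measurable_wt {d : ℕ} : Measurable (wt (d := d)) := by
  unfold wt
  refine ENNReal.measurable_ofReal.comp (Continuous.measurable ?_)
  refine Continuous.div continuous_const (by fun_prop) fun x => ?_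
  positivity

theorem measurable_UW {d : ℕ} {c : EE d → ℂ} (hc : Sym c) :
    Measurable fun x : EE d => ‖U c (x, hy x)‖ₑ ^ 2 * wt x := by
  have h1 : Continuous fun x : EE d => U c (x, hy x) :=
    (continuous_U hc).comp (continuous_id.prodMk continuous_hy)
  exact (h1.measurable.enorm.pow_const 2).mul measurable_wt

/-- a bound for a symbol -/
theorem sym_bound {d : ℕ} {c : EE d → ℂ} (hc : Sym c) : ∃ M : ℝ, 0 ≤ M ∧ ∀ ξ, ‖c ξ‖ ≤ M := by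
  obtain ⟨M, hM⟩ := hc.2.1.exists_bound_of_continuous hc.1.continuous
  exact ⟨max M 0, le_max_right _ _, fun ξ => (hM ξ).trans (le_max_left _ _)⟩

theorem l2le {d : ℕ} (c b f : EE d → ℂ) (M : ℝ) (hM : 0 ≤ M)
    (h1 : ∀ ξ, ‖c ξ‖ ≤ M * ‖𝓕 b ξ‖) (hP : ∫⁻ ξ, ‖𝓕 b ξ‖ₑ ^ 2 = ∫⁻ y, ‖b y‖ₑ ^ 2)
    (h2 : ∀ y, ‖b y‖ₑ ^ 2 ≤ ‖f y‖ₑ ^ 2 * wt y) :
    ∫⁻ ξ, ‖c ξ‖ₑ ^ 2 ≤ ENNReal.ofReal (M ^ 2) * ∫⁻ y, ‖f y‖ₑ ^ 2 * wt y := by
  calc ∫⁻ ξ, ‖c ξ‖ₑ ^ 2 ≤ ∫⁻ ξ, ENNReal.ofReal (M ^ 2) * ‖𝓕 b ξ‖ₑ ^ 2 := by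
        refine lintegral_mono fun ξ => ?_
        rw [← ofReal_norm, ← ofReal_norm, ← ENNReal.ofReal_pow (norm_nonneg _),
          ← ENNReal.ofReal_pow (norm_nonneg _), ← ENNReal.ofReal_mul (by positivity), ← mul_pow]
        exact ENNReal.ofReal_le_ofReal (pow_le_pow_left₀ (norm_nonneg _) (h1 ξ) 2)
    _ = ENNReal.ofReal (M ^ 2) * ∫⁻ ξ, ‖𝓕 b ξ‖ₑ ^ 2 := by
        rw [lintegral_const_mul' _ _ ENNReal.ofReal_ne_top]
    _ ≤ _ := by
        rw [hP]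
        exact mul_le_mul_right (lintegral_mono h2) _

/-- the weight as a real function -/
noncomputable def ww {d : ℕ} (y : EE d) : ℝ := 1 / (1 + ‖y‖ ^ 2)

theorem ww_pos {d : ℕ} (y : EE d) : 0 < ww y := by
  unfold ww
  positivity

theorem ww_le {d : ℕ} (y : EE d) : ww y ≤ 1 := by
  unfold ww
  rw [div_le_one (by positivity)]
  nlinarith [sq_nonneg ‖y‖]

theorem coord_le {d : ℕ} (y : EE d) (j : Fin d) : |y j| ≤ ‖y‖ := by
  have := PiLp.norm_apply_le y j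
  simpa using this

theorem ww_mul_sq {d : ℕ} (y : EE d) (j : Fin d) : ww y * (y j) ^ 2 ≤ 1 := by
  unfold ww
  rw [one_div, inv_mul_le_iff₀ (by positivity)]
  have h1 : (y j) ^ 2 ≤ ‖y‖ ^ 2 := by
    rw [← sq_abs]
    exact pow_le_pow_left₀ (abs_nonneg _) (coord_le y j) 2
  linarith

theorem ww_mul_abs {d : ℕ} (y : EE d) (j : Fin d) : |y j * ww y| ≤ 1 := by
  have h1 := ww_mul_sq y j
  have h2 := ww_le y
  have h3 := ww_pos y
  rw [← sq_le_one_iff_abs_le_one]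
  calc (y j * ww y) ^ 2 = (ww y * (y j) ^ 2) * ww y := by ring
    _ ≤ 1 * 1 := mul_le_mul h1 h2 h3.le (by norm_num)
    _ = 1 := by norm_num

theorem continuous_ww {d : ℕ} : Continuous (ww (d := d)) := by
  unfold ww
  refine Continuous.div continuous_const (by fun_prop) fun x => ?_
  positivity

/-- multiplication of a function of `BC` by a bounded continuous real function -/
theorem bc_mul {d : ℕ} {f : EE d → ℂ} (hf : BC f) (g : EE d → ℝ) (hg : Continuous g)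
    (hg1 : ∀ y, |g y| ≤ 1) : BC (fun y => ((g y : ℝ) : ℂ) * f y) := by
  obtain ⟨h1, ⟨A, hA⟩, R, hR⟩ := hf
  refine ⟨?_, ⟨A, fun y => ?_⟩, R, fun y hy => ?_⟩
  · exact (Complex.continuous_ofReal.comp hg).measurable.mul h1
  · rw [norm_mul, Complex.norm_real, Real.norm_eq_abs]
    calc |g y| * ‖f y‖ ≤ 1 * ‖f y‖ := mul_le_mul_of_nonneg_right (hg1 y) (norm_nonneg _)
      _ ≤ A := by
        rw [one_mul]
        exact hA y
  · show ((g y : ℝ) : ℂ) * f y = 0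
    rw [hR y hy, mul_zero]

theorem enorm_mul_le {d : ℕ} (f : EE d → ℂ) (g : EE d → ℝ) (y : EE d)
    (h : (g y) ^ 2 ≤ ww y) : ‖((g y : ℝ) : ℂ) * f y‖ₑ ^ 2 ≤ ‖f y‖ₑ ^ 2 * wt y := by
  unfold wt
  rw [← ofReal_norm, ← ofReal_norm, ← ENNReal.ofReal_pow (norm_nonneg _),
    ← ENNReal.ofReal_pow (norm_nonneg _), ← ENNReal.ofReal_mul (by positivity)]
  refine ENNReal.ofReal_le_ofReal ?_
  rw [norm_mul, Complex.norm_real, Real.norm_eq_abs, mul_pow, sq_abs, mul_comm]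
  exact mul_le_mul_of_nonneg_left h (by positivity)

/-- linear combinations of symbols -/
theorem U_add {d : ℕ} {b c : EE d → ℂ} (hb : Sym b) (hc : Sym c) (z : EE d × ℝ) :
    U (fun ξ => b ξ + c ξ) z = U b z + U c z := by
  unfold U
  rw [← integral_add (sym_integrable' hb z) (sym_integrable' hc z)]
  congr 1
  funext ξ
  ring

theorem U_sub {d : ℕ} {b c : EE d → ℂ} (hb : Sym b) (hc : Sym c) (z : EE d × ℝ) :
    U (fun ξ => b ξ - c ξ) z = U b z - U c z := by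
  unfold U
  rw [← integral_sub (sym_integrable' hb z) (sym_integrable' hc z)]
  congr 1
  funext ξ
  ring

/-- the bounds for the shifted symbols -/
theorem sh_bound {d : ℕ} (hS : T_SYM) {a : EE d → ℂ} (ha : Sym a) : ∃ M : ℝ, 0 ≤ M ∧
    (∀ ξ, ‖a ξ‖ ≤ M) ∧ (∀ ξ, ‖ξ‖ * ‖a ξ‖ ≤ M) ∧
    ∀ (s : ℝ) (j : Fin d) (ξ : EE d), ‖ξ‖ * ‖pd j (sh s a) ξ‖ ≤ M * (1 + |s|) := by
  obtain ⟨hmc, hmn, hpd, -, -, -⟩ := hS d a ha
  obtain ⟨M1, hM1, h1⟩ := sym_bound ha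
  obtain ⟨M2, hM2, h2⟩ := sym_bound hmn
  have h3 : ∀ j : Fin d, ∃ M : ℝ, 0 ≤ M ∧ ∀ ξ, ‖mn (pd j a) ξ‖ ≤ M := fun j =>
    sym_bound (hS d (pd j a) (hpd j)).2.1
  choose M3 hM3 h3 using h3
  have hn : ∀ (c : EE d → ℂ) ξ, ‖mn c ξ‖ = ‖ξ‖ * ‖c ξ‖ := by
    intro c ξ
    unfold mn
    rw [norm_mul, Complex.norm_real, Real.norm_eq_abs, abs_norm]
  have hS3 : 0 ≤ ∑ j, M3 j := Finset.sum_nonneg fun j _ => hM3 j
  have hpi : 0 < Real.pi := Real.pi_pos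
  have hP : 0 ≤ 2 * Real.pi * M2 := by positivity
  refine ⟨M1 + M2 + 2 * Real.pi * M2 + ∑ j, M3 j, by positivity, fun ξ => ?_, fun ξ => ?_,
    fun s j ξ => ?_⟩
  · have := h1 ξ
    linarith
  · have := h2 ξ
    rw [hn] at this
    linarith
  · have h4 := (phase_fderiv ha 0 s j ξ).2
    have h5 : (fun ξ : EE d => e (inner ℝ 0 ξ + s * ‖ξ‖) * a ξ) = sh s a := by
      funext ξ
      unfold sh
      rw [inner_zero_left, zero_add]
    rw [h5] at h4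
    have h6 : pd j (sh s a) ξ = fderiv ℝ (sh s a) ξ (ei j) := rfl
    rw [h6, h4]
    have h7 : ‖ξ‖ * ‖a ξ‖ ≤ M2 := by
      rw [← hn]
      exact h2 ξ
    have h8 : ‖ξ‖ * ‖pd j a ξ‖ ≤ M3 j := by
      rw [← hn]
      exact h3 j ξ
    have h9 : M3 j ≤ ∑ j, M3 j := Finset.single_le_sum (fun i _ => hM3 i) (Finset.mem_univ j)
    have h10 : |s * (‖ξ‖⁻¹ * ξ j)| ≤ |s| := by
      rw [abs_mul, abs_mul, abs_inv, abs_norm]
      have : ‖ξ‖⁻¹ * |ξ j| ≤ 1 := by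
        rcases eq_or_ne ξ 0 with h0 | h0
        · rw [h0]
          simp
        · have hpos : 0 < ‖ξ‖ := norm_pos_iff.2 h0
          rw [inv_mul_le_iff₀ hpos, mul_one]
          exact coord_le ξ j
      calc |s| * (‖ξ‖⁻¹ * |ξ j|) ≤ |s| * 1 := mul_le_mul_of_nonneg_left this (abs_nonneg _)
        _ = |s| := mul_one _
    have h11 : ‖2 * (Real.pi : ℂ) * Complex.I * ((((0 : EE d) j + s * (‖ξ‖⁻¹ * ξ j)) : ℝ) : ℂ) *
        (e (inner ℝ 0 ξ + s * ‖ξ‖) * a ξ) + e (inner ℝ 0 ξ + s * ‖ξ‖) * pd j a ξ‖ ≤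
        2 * Real.pi * |s| * ‖a ξ‖ + ‖pd j a ξ‖ := by
      refine (norm_add_le _ _).trans (add_le_add ?_ ?_)
      · rw [norm_mul, norm_mul, norm_mul, norm_mul, norm_mul, norm_e, one_mul, Complex.norm_I,
          Complex.norm_real, Complex.norm_real, Complex.norm_ofNat, Real.norm_eq_abs,
          Real.norm_eq_abs, abs_of_pos hpi, mul_one]
        have : (0 : EE d) j + s * (‖ξ‖⁻¹ * ξ j) = s * (‖ξ‖⁻¹ * ξ j) := by simp
        rw [this]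
        exact mul_le_mul_of_nonneg_right (mul_le_mul_of_nonneg_left h10 (by positivity))
          (norm_nonneg _)
      · rw [norm_mul, norm_e, one_mul]
    calc ‖ξ‖ * _ ≤ ‖ξ‖ * (2 * Real.pi * |s| * ‖a ξ‖ + ‖pd j a ξ‖) :=
          mul_le_mul_of_nonneg_left h11 (norm_nonneg _)
      _ = 2 * Real.pi * |s| * (‖ξ‖ * ‖a ξ‖) + ‖ξ‖ * ‖pd j a ξ‖ := by ring
      _ ≤ 2 * Real.pi * |s| * M2 + M3 j :=
          add_le_add (mul_le_mul_of_nonneg_left h7 (by positivity)) h8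
      _ ≤ _ := by
          have hs : 0 ≤ |s| := abs_nonneg s
          nlinarith [mul_nonneg hM1 hs, mul_nonneg hM2 hs, mul_nonneg hS3 hs,
            mul_nonneg hP hs]

/-- the decomposition of the wave -/
theorem decomp {d : ℕ} (hS : T_SYM) (hW : T_WF) {a f : EE d → ℂ} (ha : Sym a) (hf : BC f)
    (s : ℝ) (x : EE d) :
    W a f (x, hy x + s) = (∑ j : Fin d, (-(2 * (Real.pi : ℂ) * Complex.I))⁻¹ *
      (U (pd j (fun ξ => sh s a ξ * 𝓕 (fun y => ((y j * ww y : ℝ) : ℂ) * f y) ξ)) (x, hy x) -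
        U (fun ξ => pd j (sh s a) ξ * 𝓕 (fun y => ((y j * ww y : ℝ) : ℂ) * f y) ξ) (x, hy x))) +
      U (fun ξ => sh s a ξ * 𝓕 (fun y => ((ww y : ℝ) : ℂ) * f y) ξ) (x, hy x) := by
  obtain ⟨-, -, -, hsh, -, -⟩ := hS d a ha
  have hsa : Sym (sh s a) := hsh s
  obtain ⟨-, -, hpd, -, -, hmul⟩ := hS d (sh s a) hsa
  have hbj : ∀ j : Fin d, BC (fun y => ((y j * ww y : ℝ) : ℂ) * f y) := fun j =>
    bc_mul hf _ ((by fun_prop : Continuous fun y : EE d => y j).mul continuous_ww)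
      (fun y => ww_mul_abs y j)
  have hb0 : BC (fun y => ((ww y : ℝ) : ℂ) * f y) :=
    bc_mul hf _ continuous_ww (fun y => by
      rw [abs_of_pos (ww_pos y)]
      exact ww_le y)
  have hint : ∀ g : EE d → ℂ, BC g → Integrable g := by
    intro g hg
    obtain ⟨h1, ⟨A, hA⟩, R, hR⟩ := hg
    have h2 : Integrable ((Metric.closedBall (0 : EE d) R).indicator fun _ => (A : ℝ)) :=
      (integrable_indicator_iff measurableSet_closedBall).2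
        (integrableOn_const (measure_closedBall_lt_top.ne) (by simp))
    refine h2.mono' h1.aestronglyMeasurable (Eventually.of_forall fun y => ?_)
    by_cases hy : y ∈ Metric.closedBall (0 : EE d) R
    · rw [indicator_of_mem hy]
      exact hA y
    · rw [indicator_of_notMem hy, hR y (by simpa using hy), norm_zero]
  -- the function as a sum
  have hyb : ∀ j : Fin d, BC (fun y => ((y j : ℝ) : ℂ) * (((y j * ww y : ℝ) : ℂ) * f y)) := by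
    intro j
    have h1 : (fun y : EE d => ((y j : ℝ) : ℂ) * (((y j * ww y : ℝ) : ℂ) * f y)) =
        fun y => ((ww y * (y j) ^ 2 : ℝ) : ℂ) * f y := by
      funext y
      push_cast
      ring
    rw [h1]
    refine bc_mul hf _ (continuous_ww.mul (by fun_prop)) fun y => ?_
    rw [abs_of_nonneg (mul_nonneg (ww_pos y).le (sq_nonneg _))]
    exact ww_mul_sq y j
  have hsum : f = fun y => (∑ j : Fin d, ((y j : ℝ) : ℂ) * (((y j * ww y : ℝ) : ℂ) * f y)) +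
      ((ww y : ℝ) : ℂ) * f y := by
    funext y
    have h1 : ∑ j : Fin d, ((y j : ℝ) : ℂ) * (((y j * ww y : ℝ) : ℂ) * f y) =
        (((∑ j : Fin d, (y j) ^ 2) * ww y : ℝ) : ℂ) * f y := by
      push_cast
      rw [Finset.sum_mul, Finset.sum_mul]
      refine Finset.sum_congr rfl fun j _ => ?_
      ring
    rw [h1, ← add_mul, ← Complex.ofReal_add]
    have h2 : ∑ j : Fin d, (y j) ^ 2 = ‖y‖ ^ 2 := by
      rw [EuclideanSpace.norm_sq_eq]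
      refine Finset.sum_congr rfl fun j _ => ?_
      rw [Real.norm_eq_abs, sq_abs]
    rw [h2]
    have h3 : ‖y‖ ^ 2 * ww y + ww y = 1 := by
      unfold ww
      field_simp
      ring
    rw [h3, Complex.ofReal_one, one_mul]
  have hF : ∀ ξ, 𝓕 f ξ = (∑ j : Fin d, (-(2 * (Real.pi : ℂ) * Complex.I))⁻¹ *
      fderiv ℝ (𝓕 (fun y => ((y j * ww y : ℝ) : ℂ) * f y)) ξ (ei j)) +
      𝓕 (fun y => ((ww y : ℝ) : ℂ) * f y) ξ := by
    intro ξ
    have h1 : 𝓕 f ξ = 𝓕 (fun y => (∑ j : Fin d, ((y j : ℝ) : ℂ) *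
        (((y j * ww y : ℝ) : ℂ) * f y)) + ((ww y : ℝ) : ℂ) * f y) ξ := by
      rw [← hsum]
    rw [h1, Pool.Agent.H22.KL.fourier_e]
    have hI : ∀ g : EE d → ℂ, BC g → Integrable fun v : EE d => e (-(inner ℝ v ξ)) * g v := by
      intro g hg
      refine (hint g hg).norm.mono' ?_ (Eventually.of_forall fun v => ?_)
      · exact (continuous_e.comp (by fun_prop)).aestronglyMeasurable.mul
          hg.1.aestronglyMeasurable
      · rw [norm_mul, norm_e, one_mul]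
    have h2 : (fun v : EE d => e (-(inner ℝ v ξ)) * ((∑ j : Fin d, ((v j : ℝ) : ℂ) *
        (((v j * ww v : ℝ) : ℂ) * f v)) + ((ww v : ℝ) : ℂ) * f v)) =
        fun v => (∑ j : Fin d, e (-(inner ℝ v ξ)) * (((v j : ℝ) : ℂ) *
        (((v j * ww v : ℝ) : ℂ) * f v))) + e (-(inner ℝ v ξ)) * (((ww v : ℝ) : ℂ) * f v) := by
      funext v
      rw [mul_add, Finset.mul_sum]
    rw [h2, integral_add (integrable_finset_sum _ fun j _ => hI _ (hyb j)) (hI _ hb0),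
      integral_finset_sum _ fun j _ => hI _ (hyb j), ← Pool.Agent.H22.KL.fourier_e]
    congr 1
    refine Finset.sum_congr rfl fun j _ => ?_
    rw [← Pool.Agent.H22.KL.fourier_e, (hW d _ (hbj j)).2.2.1 j ξ, ← mul_assoc, inv_mul_cancel₀,
      one_mul]
    simp [Real.pi_ne_zero]
  have hsm : ∀ g : EE d → ℂ, BC g → ContDiff ℝ (⊤ : ℕ∞) (𝓕 g) := fun g hg => (hW d g hg).1
  rw [(hW d f hf).2.2.2 a _ ha]
  have hSj : ∀ j : Fin d, Sym (fun ξ => sh s a ξ * 𝓕 (fun y => ((y j * ww y : ℝ) : ℂ) * f y) ξ) :=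
    fun j => hmul _ (hsm _ (hbj j))
  have hSj' : ∀ j : Fin d, Sym (pd j
      (fun ξ => sh s a ξ * 𝓕 (fun y => ((y j * ww y : ℝ) : ℂ) * f y) ξ)) := fun j =>
    (hS d _ (hSj j)).2.2.1 j
  have hTj : ∀ j : Fin d,
      Sym (fun ξ => pd j (sh s a) ξ * 𝓕 (fun y => ((y j * ww y : ℝ) : ℂ) * f y) ξ) :=
    fun j => (hS d _ (hpd j)).2.2.2.2.2 _ (hsm _ (hbj j))
  have hS0 : Sym (fun ξ => sh s a ξ * 𝓕 (fun y => ((ww y : ℝ) : ℂ) * f y) ξ) :=
    hmul _ (hsm _ hb0)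
  unfold U
  have hz : ∀ ξ : EE d, e (inner ℝ (x, hy x + s).1 ξ + (x, hy x + s).2 * ‖ξ‖) * (a ξ * 𝓕 f ξ) =
      (∑ j : Fin d, (-(2 * (Real.pi : ℂ) * Complex.I))⁻¹ *
        (e (inner ℝ x ξ + hy x * ‖ξ‖) *
          pd j (fun ξ => sh s a ξ * 𝓕 (fun y => ((y j * ww y : ℝ) : ℂ) * f y) ξ) ξ -
        e (inner ℝ x ξ + hy x * ‖ξ‖) *
          (pd j (sh s a) ξ * 𝓕 (fun y => ((y j * ww y : ℝ) : ℂ) * f y) ξ))) +
        e (inner ℝ x ξ + hy x * ‖ξ‖) *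
          (sh s a ξ * 𝓕 (fun y => ((ww y : ℝ) : ℂ) * f y) ξ) := by
    intro ξ
    have h1 : e (inner ℝ (x, hy x + s).1 ξ + (x, hy x + s).2 * ‖ξ‖) * (a ξ * 𝓕 f ξ) =
        e (inner ℝ x ξ + hy x * ‖ξ‖) * (sh s a ξ * 𝓕 f ξ) := by
      unfold sh
      have h2 : inner ℝ (x, hy x + s).1 ξ + (x, hy x + s).2 * ‖ξ‖ =
          (inner ℝ x ξ + hy x * ‖ξ‖) + s * ‖ξ‖ := by
        show inner ℝ x ξ + (hy x + s) * ‖ξ‖ = _
        ring
      rw [h2, e_add]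
      ring
    have h3 : ∀ j : Fin d,
        pd j (fun ξ => sh s a ξ * 𝓕 (fun y => ((y j * ww y : ℝ) : ℂ) * f y) ξ) ξ =
        sh s a ξ * fderiv ℝ (𝓕 (fun y => ((y j * ww y : ℝ) : ℂ) * f y)) ξ (ei j) +
        pd j (sh s a) ξ * 𝓕 (fun y => ((y j * ww y : ℝ) : ℂ) * f y) ξ := by
      intro j
      unfold pd
      have h4 := (hsa.1.differentiable (by simp) ξ).hasFDerivAt.mul
        ((hsm _ (hbj j)).differentiable (by simp) ξ).hasFDerivAt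
      have h5 : HasFDerivAt
        (fun ξ => sh s a ξ * 𝓕 (fun y => ((y j * ww y : ℝ) : ℂ) * f y) ξ) _ ξ := h4
      rw [h5.fderiv]
      simp only [ContinuousLinearMap.add_apply, ContinuousLinearMap.smul_apply, smul_eq_mul]
      ring
    rw [h1, hF, mul_add, mul_add, Finset.mul_sum, Finset.mul_sum]
    congr 1
    refine Finset.sum_congr rfl fun j _ => ?_
    rw [h3]
    ring
  rw [show (fun ξ : EE d => e (inner ℝ (x, hy x + s).1 ξ + (x, hy x + s).2 * ‖ξ‖) *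
    (a ξ * 𝓕 f ξ)) = _ from funext hz]
  have i1 : ∀ j : Fin d, Integrable (fun ξ : EE d => e (inner ℝ x ξ + hy x * ‖ξ‖) *
      pd j (fun ξ => sh s a ξ * 𝓕 (fun y => ((y j * ww y : ℝ) : ℂ) * f y) ξ) ξ) :=
    fun j => sym_integrable' (hSj' j) (x, hy x)
  have i2 : ∀ j : Fin d, Integrable (fun ξ : EE d => e (inner ℝ x ξ + hy x * ‖ξ‖) *
      (pd j (sh s a) ξ * 𝓕 (fun y => ((y j * ww y : ℝ) : ℂ) * f y) ξ)) :=
    fun j => sym_integrable' (hTj j) (x, hy x)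
  have i3 : Integrable (fun ξ : EE d => e (inner ℝ x ξ + hy x * ‖ξ‖) *
      (sh s a ξ * 𝓕 (fun y => ((ww y : ℝ) : ℂ) * f y) ξ)) :=
    sym_integrable' hS0 (x, hy x)
  have i12 : ∀ j : Fin d, Integrable (fun ξ : EE d => (-(2 * (Real.pi : ℂ) * Complex.I))⁻¹ *
      (e (inner ℝ x ξ + hy x * ‖ξ‖) *
        pd j (fun ξ => sh s a ξ * 𝓕 (fun y => ((y j * ww y : ℝ) : ℂ) * f y) ξ) ξ -
      e (inner ℝ x ξ + hy x * ‖ξ‖) *
        (pd j (sh s a) ξ * 𝓕 (fun y => ((y j * ww y : ℝ) : ℂ) * f y) ξ))) :=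
    fun j => ((i1 j).sub (i2 j)).const_mul _
  rw [integral_add (integrable_finset_sum _ fun j _ => i12 j) i3,
    integral_finset_sum _ fun j _ => i12 j]
  congr 1
  refine Finset.sum_congr rfl fun j _ => ?_
  rw [integral_const_mul, integral_sub (i1 j) (i2 j)]

/-- Row HW -/
theorem pf_HW (hS : T_SYM) (hA : T_HWA) (hW : T_WF) : T_HW := by
  intro d a hd ha
  obtain ⟨C, hC⟩ := hA d hd
  obtain ⟨M, hM, hM1, hM2, hM3⟩ := sh_bound hS ha
  refine ⟨(8 * d * d + 2) * (C * Real.toNNReal (M ^ 2)), fun s f hf => ?_⟩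
  obtain ⟨-, -, -, hsh, -, -⟩ := hS d a ha
  have hsa : Sym (sh s a) := hsh s
  obtain ⟨-, -, hpd, -, -, hmul⟩ := hS d (sh s a) hsa
  have hbj : ∀ j : Fin d, BC (fun y => ((y j * ww y : ℝ) : ℂ) * f y) := fun j =>
    bc_mul hf _ ((by fun_prop : Continuous fun y : EE d => y j).mul continuous_ww)
      (fun y => ww_mul_abs y j)
  have hb0 : BC (fun y => ((ww y : ℝ) : ℂ) * f y) :=
    bc_mul hf _ continuous_ww (fun y => by
      rw [abs_of_pos (ww_pos y)]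
      exact ww_le y)
  have hsm : ∀ g : EE d → ℂ, BC g → ContDiff ℝ (⊤ : ℕ∞) (𝓕 g) := fun g hg => (hW d g hg).1
  have hSj : ∀ j : Fin d, Sym (fun ξ => sh s a ξ * 𝓕 (fun y => ((y j * ww y : ℝ) : ℂ) * f y) ξ) :=
    fun j => hmul _ (hsm _ (hbj j))
  have hSj' : ∀ j : Fin d, Sym (pd j
      (fun ξ => sh s a ξ * 𝓕 (fun y => ((y j * ww y : ℝ) : ℂ) * f y) ξ)) := fun j =>
    (hS d _ (hSj j)).2.2.1 j
  have hTj : ∀ j : Fin d,
      Sym (fun ξ => pd j (sh s a) ξ * 𝓕 (fun y => ((y j * ww y : ℝ) : ℂ) * f y) ξ) :=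
    fun j => (hS d _ (hpd j)).2.2.2.2.2 _ (hsm _ (hbj j))
  have hS0 : Sym (fun ξ => sh s a ξ * 𝓕 (fun y => ((ww y : ℝ) : ℂ) * f y) ξ) :=
    hmul _ (hsm _ hb0)
  set I : ℝ≥0∞ := ∫⁻ y, ‖f y‖ₑ ^ 2 * wt y with hI
  set L : ℝ≥0∞ := ENNReal.ofReal (M ^ 2) * ENNReal.ofReal ((1 + |s|) ^ 2) * I with hL
  have hs1 : (1 : ℝ) ≤ 1 + |s| := by
    have := abs_nonneg s
    linarith
  have habs : ∀ ξ, ‖sh s a ξ‖ = ‖a ξ‖ := by
    intro ξ
    unfold sh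
    rw [norm_mul, norm_e, one_mul]
  have hmn : ∀ (c : EE d → ℂ) ξ, ‖mn c ξ‖ = ‖ξ‖ * ‖c ξ‖ := by
    intro c ξ
    unfold mn
    rw [norm_mul, Complex.norm_real, Real.norm_eq_abs, abs_norm]
  have hMs : M ≤ M * (1 + |s|) := le_mul_of_one_le_right hM hs1
  have hbw : ∀ (j : Fin d) (y : EE d),
      ‖((y j * ww y : ℝ) : ℂ) * f y‖ₑ ^ 2 ≤ ‖f y‖ₑ ^ 2 * wt y := by
    intro j y
    refine enorm_mul_le f (fun y => y j * ww y) y ?_
    have h1 := ww_mul_sq y j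
    have h2 := ww_pos y
    calc (y j * ww y) ^ 2 = (ww y * (y j) ^ 2) * ww y := by ring
      _ ≤ 1 * ww y := mul_le_mul_of_nonneg_right h1 h2.le
      _ = ww y := one_mul _
  have hb0w : ∀ y : EE d, ‖((ww y : ℝ) : ℂ) * f y‖ₑ ^ 2 ≤ ‖f y‖ₑ ^ 2 * wt y := by
    intro y
    refine enorm_mul_le f (fun y => ww y) y ?_
    have h1 := ww_le y
    have h2 := ww_pos y
    nlinarith
  have hML : ENNReal.ofReal ((M * (1 + |s|)) ^ 2) * I = L := by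
    rw [hL, mul_pow, ENNReal.ofReal_mul (by positivity)]
  -- the three kinds of terms
  have tA : ∀ j : Fin d, ∫⁻ x : EE d, ‖U (pd j
      (fun ξ => sh s a ξ * 𝓕 (fun y => ((y j * ww y : ℝ) : ℂ) * f y) ξ)) (x, hy x)‖ₑ ^ 2 * wt x ≤
      C * L := by
    intro j
    refine ((hC _ (hSj j)).1 j).trans (mul_le_mul_right ?_ _)
    rw [← hML]
    refine l2le _ _ f (M * (1 + |s|)) (by positivity) (fun ξ => ?_) (hW d _ (hbj j)).2.1 (hbw j)
    rw [norm_mul, habs]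
    exact mul_le_mul_of_nonneg_right ((hM1 ξ).trans hMs) (norm_nonneg _)
  have tB : ∀ j : Fin d, ∫⁻ x : EE d, ‖U
      (fun ξ => pd j (sh s a) ξ * 𝓕 (fun y => ((y j * ww y : ℝ) : ℂ) * f y) ξ)
        (x, hy x)‖ₑ ^ 2 * wt x ≤ C * L := by
    intro j
    refine ((hC _ (hTj j)).2).trans (mul_le_mul_right ?_ _)
    rw [← hML]
    refine l2le _ _ f (M * (1 + |s|)) (by positivity) (fun ξ => ?_) (hW d _ (hbj j)).2.1 (hbw j)
    rw [hmn, norm_mul, ← mul_assoc]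
    exact mul_le_mul_of_nonneg_right (hM3 s j ξ) (norm_nonneg _)
  have tC : ∫⁻ x : EE d, ‖U
      (fun ξ => sh s a ξ * 𝓕 (fun y => ((ww y : ℝ) : ℂ) * f y) ξ) (x, hy x)‖ₑ ^ 2 * wt x ≤
      C * L := by
    refine ((hC _ hS0).2).trans (mul_le_mul_right ?_ _)
    rw [← hML]
    refine l2le _ _ f (M * (1 + |s|)) (by positivity) (fun ξ => ?_) (hW d _ hb0).2.1 hb0w
    rw [hmn, norm_mul, habs, ← mul_assoc]
    exact mul_le_mul_of_nonneg_right ((hM2 ξ).trans hMs) (norm_nonneg _)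
  -- pointwise
  have hκ : ‖(-(2 * (Real.pi : ℂ) * Complex.I))⁻¹‖ₑ ≤ 1 := by
    have h1 : ‖(-(2 * (Real.pi : ℂ) * Complex.I))⁻¹‖ ≤ 1 := by
      rw [norm_inv, norm_neg, norm_mul, norm_mul, Complex.norm_I, Complex.norm_real,
        Complex.norm_ofNat, Real.norm_eq_abs, abs_of_pos Real.pi_pos, mul_one]
      refine inv_le_one_of_one_le₀ ?_
      have := Real.pi_gt_three
      linarith
    rw [← ofReal_norm]
    exact ENNReal.ofReal_le_one.2 h1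
  have hpt : ∀ x : EE d, ‖W a f (x, hy x + s)‖ₑ ^ 2 * wt x ≤
      4 * d * (∑ j : Fin d, (‖U (pd j
        (fun ξ => sh s a ξ * 𝓕 (fun y => ((y j * ww y : ℝ) : ℂ) * f y) ξ)) (x, hy x)‖ₑ ^ 2 * wt x +
        ‖U (fun ξ => pd j (sh s a) ξ * 𝓕 (fun y => ((y j * ww y : ℝ) : ℂ) * f y) ξ)
        (x, hy x)‖ₑ ^ 2 * wt x)) +
      2 * (‖U (fun ξ => sh s a ξ * 𝓕 (fun y => ((ww y : ℝ) : ℂ) * f y) ξ) (x, hy x)‖ₑ ^ 2 *
        wt x) := by
    intro x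
    rw [decomp hS hW ha hf s x]
    refine (mul_le_mul_left (enorm_add_sq _ _) _).trans ?_
    rw [add_mul]
    refine add_le_add ?_ (le_of_eq (by ring))
    refine (mul_le_mul_left (mul_le_mul_right (enorm_sum_sq _) _) _).trans ?_
    rw [← mul_assoc (2 : ℝ≥0∞), mul_assoc, Finset.sum_mul]
    have h1 : (4 : ℝ≥0∞) * d * (∑ j : Fin d, (‖U (pd j
        (fun ξ => sh s a ξ * 𝓕 (fun y => ((y j * ww y : ℝ) : ℂ) * f y) ξ)) (x, hy x)‖ₑ ^ 2 * wt x +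
        ‖U (fun ξ => pd j (sh s a) ξ * 𝓕 (fun y => ((y j * ww y : ℝ) : ℂ) * f y) ξ)
        (x, hy x)‖ₑ ^ 2 * wt x)) = 2 * d * ∑ j : Fin d, 2 * (‖U (pd j
        (fun ξ => sh s a ξ * 𝓕 (fun y => ((y j * ww y : ℝ) : ℂ) * f y) ξ)) (x, hy x)‖ₑ ^ 2 * wt x +
        ‖U (fun ξ => pd j (sh s a) ξ * 𝓕 (fun y => ((y j * ww y : ℝ) : ℂ) * f y) ξ)
        (x, hy x)‖ₑ ^ 2 * wt x) := by
      rw [← Finset.mul_sum, show (4 : ℝ≥0∞) = 2 * 2 by norm_num]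
      ring
    rw [h1]
    refine mul_le_mul_right (Finset.sum_le_sum fun j _ => ?_) _
    rw [enorm_mul, mul_pow]
    calc
      _ ≤ 1 ^ 2 * ‖U (pd j
        (fun ξ => sh s a ξ * 𝓕 (fun y => ((y j * ww y : ℝ) : ℂ) * f y) ξ)) (x, hy x) -
        U (fun ξ => pd j (sh s a) ξ * 𝓕 (fun y => ((y j * ww y : ℝ) : ℂ) * f y) ξ)
        (x, hy x)‖ₑ ^ 2 * wt x :=
          mul_le_mul_left (mul_le_mul_left (pow_le_pow_left₀ (by simp) hκ 2) _) _
      _ ≤ _ := by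
          rw [one_pow, one_mul, sub_eq_add_neg]
          refine (mul_le_mul_left (enorm_add_sq _ _) _).trans (le_of_eq ?_)
          rw [enorm_neg]
          ring
  refine (lintegral_mono hpt).trans ?_
  rw [lintegral_add_left, lintegral_const_mul, lintegral_finset_sum, lintegral_const_mul]
  · have h1 : ∀ j : Fin d, ∫⁻ x : EE d, (‖U (pd j
        (fun ξ => sh s a ξ * 𝓕 (fun y => ((y j * ww y : ℝ) : ℂ) * f y) ξ)) (x, hy x)‖ₑ ^ 2 * wt x +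
        ‖U (fun ξ => pd j (sh s a) ξ * 𝓕 (fun y => ((y j * ww y : ℝ) : ℂ) * f y) ξ)
        (x, hy x)‖ₑ ^ 2 * wt x) ≤ 2 * (C * L) := by
      intro j
      rw [lintegral_add_left (measurable_UW ((hS d _ (hSj j)).2.2.1 j)), two_mul]
      exact add_le_add (tA j) (tB j)
    calc _ ≤ 4 * (d : ℝ≥0∞) * ∑ _j : Fin d, 2 * (C * L) + 2 * (C * L) :=
          add_le_add (mul_le_mul_right (Finset.sum_le_sum fun j _ => h1 j) _)
            (mul_le_mul_right tC _)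
      _ = _ := by
          rw [Finset.sum_const, Finset.card_univ, Fintype.card_fin, nsmul_eq_mul, hL]
          push_cast
          rw [show ((Real.toNNReal (M ^ 2) : ℝ≥0) : ℝ≥0∞) = ENNReal.ofReal (M ^ 2) from rfl]
          ring
  · exact measurable_UW hS0
  · intro j _
    exact (measurable_UW ((hS d _ (hSj j)).2.2.1 j)).add (measurable_UW (hTj j))
  · exact Finset.measurable_sum _ fun j _ =>
      (measurable_UW ((hS d _ (hSj j)).2.2.1 j)).add (measurable_UW (hTj j))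
  · exact (Finset.measurable_sum _ fun j _ =>
      (measurable_UW ((hS d _ (hSj j)).2.2.1 j)).add (measurable_UW (hTj j))).const_mul _

end Pool.Agent.H54.C1
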