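import Pool.Agent.H94.C1.Targets
import Pool.Agent.H22.KL.PKZ

/-! Row IDN of the board `c1_modules` (MP_ee74d2_an). -/

set_option autoImplicit false

namespace Pool.Agent.H54.C1

open MeasureTheory Set Filter Pool.Agent.H82.KL Pool.Agent.H94.C1
open Pool.Agent.H22.KL (norm_e e_add continuous_e)
open scoped ENNReal NNReal Topology

theorem hasFDerivAt_nrm {d : ℕ} {ξ : EE d} (h : ξ ≠ 0) :
    HasFDerivAt (fun ξ : EE d => ‖ξ‖) (‖ξ‖⁻¹ • innerSL ℝ ξ) ξ := by
  have h0 : 0 < ‖ξ‖ := norm_pos_iff.2 h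
  have h1 := (hasStrictFDerivAt_norm_sq ξ).hasFDerivAt.sqrt (by positivity)
  have h2 : (fun y : EE d => Real.sqrt (‖y‖ ^ 2)) = fun y => ‖y‖ := by
    funext y
    exact Real.sqrt_sq (norm_nonneg y)
  rw [h2] at h1
  refine h1.congr_fderiv ?_
  rw [Real.sqrt_sq h0.le]
  ext v
  simp only [ContinuousLinearMap.smul_apply, innerSL_apply_apply, smul_eq_mul, nsmul_eq_mul]
  push_cast
  field_simp

theorem hasDerivAt_e (x : ℝ) : HasDerivAt e (2 * (Real.pi : ℂ) * Complex.I * e x) x := by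
  have h1 : HasDerivAt (fun x : ℝ => ((2 * Real.pi * x : ℝ) : ℂ) * Complex.I)
      ((2 * Real.pi : ℝ) * Complex.I) x := by
    have h2 : HasDerivAt (fun x : ℝ => 2 * Real.pi * x) (2 * Real.pi) x := by
      simpa using (hasDerivAt_id x).const_mul (2 * Real.pi)
    exact (h2.ofReal_comp).mul_const Complex.I
  have h3 := h1.cexp
  unfold e
  convert h3 using 1
  push_cast
  ring

theorem sym_integrable' {d : ℕ} {c : EE d → ℂ} (hc : Sym c) (z : EE d × ℝ) :
    Integrable (fun ξ : EE d => e (inner ℝ z.1 ξ + z.2 * ‖ξ‖) * c ξ) := by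
  have h1 : Integrable c := hc.1.continuous.integrable_of_hasCompactSupport hc.2.1
  refine h1.norm.mono' ?_ (Eventually.of_forall fun ξ => ?_)
  · refine Continuous.aestronglyMeasurable ?_
    exact (continuous_e.comp (by fun_prop)).mul hc.1.continuous
  · rw [norm_mul, norm_e, one_mul]

/-- a product of the phase with a symbol -/
theorem phase_fderiv {d : ℕ} {c : EE d → ℂ} (hc : Sym c) (x : EE d) (h : ℝ) (j : Fin d)
    (ξ : EE d) :
    DifferentiableAt ℝ (fun ξ : EE d => e (inner ℝ x ξ + h * ‖ξ‖) * c ξ) ξ ∧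
    fderiv ℝ (fun ξ : EE d => e (inner ℝ x ξ + h * ‖ξ‖) * c ξ) ξ (ei j) =
      2 * (Real.pi : ℂ) * Complex.I * ((x j + h * (‖ξ‖⁻¹ * ξ j) : ℝ) : ℂ) *
        (e (inner ℝ x ξ + h * ‖ξ‖) * c ξ) + e (inner ℝ x ξ + h * ‖ξ‖) * pd j c ξ := by
  by_cases hξ : ξ ∈ tsupport c
  · have h0 : ξ ≠ 0 := fun h0 => hc.2.2 (h0 ▸ hξ)
    have hθ : HasFDerivAt (fun ξ : EE d => inner ℝ x ξ + h * ‖ξ‖)
        (innerSL ℝ x + h • (‖ξ‖⁻¹ • innerSL ℝ ξ)) ξ := by
      refine HasFDerivAt.add ?_ ((hasFDerivAt_nrm h0).const_mul h)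
      exact (innerSL ℝ x).hasFDerivAt
    have he := (hasDerivAt_e (inner ℝ x ξ + h * ‖ξ‖)).hasFDerivAt.comp ξ hθ
    have hcd : HasFDerivAt c (fderiv ℝ c ξ) ξ :=
      (hc.1.differentiable (by simp) ξ).hasFDerivAt
    have hm := he.mul hcd
    have hm' : HasFDerivAt (fun ξ : EE d => e (inner ℝ x ξ + h * ‖ξ‖) * c ξ) _ ξ := hm
    refine ⟨hm'.differentiableAt, ?_⟩
    rw [hm'.fderiv]
    have e0 : ∀ x : EE d, (innerSL ℝ x) (ei j) = x j := by
      intro x
      rw [innerSL_apply_apply]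
      unfold ei
      rw [EuclideanSpace.inner_single_right]
      simp
    have e1 := e0 x
    have e2 := e0 ξ
    simp only [ContinuousLinearMap.add_apply, ContinuousLinearMap.smul_apply,
      ContinuousLinearMap.comp_apply, ContinuousLinearMap.toSpanSingleton_apply, e1, e2, smul_eq_mul,
      Function.comp_apply, Complex.real_smul, pd]
    push_cast
    ring
  · have hz : c =ᶠ[𝓝 ξ] 0 := notMem_tsupport_iff_eventuallyEq.1 hξ
    have hz1 : (fun ξ : EE d => e (inner ℝ x ξ + h * ‖ξ‖) * c ξ) =ᶠ[𝓝 ξ] fun _ => 0 := by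
      filter_upwards [hz] with y hy
      rw [hy, Pi.zero_apply, mul_zero]
    have hz2 : c ξ = 0 := hz.self_of_nhds
    have hz3 : pd j c ξ = 0 := by
      unfold pd
      rw [hz.fderiv_eq]
      simp
    refine ⟨(differentiableAt_const (0 : ℂ)).congr_of_eventuallyEq hz1, ?_⟩
    rw [hz1.fderiv_eq, hz2, hz3]
    simp

/-- Row IDN -/
theorem pf_IDN (hS : T_SYM) (hD : T_DIF) (hA : T_APX) : T_IDN := by
  intro d b j x hb
  obtain ⟨-, -, -, -, -, -, hy1, hy2⟩ := hA d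
  obtain ⟨hmc, hmn, -, -, -, -⟩ := hS d b hb
  obtain ⟨-, -, hpd, -, -, -⟩ := hS d (mn b) hmn
  obtain ⟨hU1, hU2⟩ := hD d b hb
  have hpos : 0 < hy x := by
    unfold hy
    positivity
  set h : ℝ := hy x with hh
  -- the left side
  have hcomp : HasFDerivAt (onG b hy) ((fderiv ℝ (U b) (x, hy x)).comp
      ((ContinuousLinearMap.id ℝ (EE d)).prod (fderiv ℝ hy x))) x := by
    have h1 : HasFDerivAt (fun x : EE d => (x, hy x))
        ((ContinuousLinearMap.id ℝ (EE d)).prod (fderiv ℝ hy x)) x :=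
      (hasFDerivAt_id x).prodMk (hy1.differentiable (by simp) x).hasFDerivAt
    exact HasFDerivAt.comp x ((hU1.differentiable (by simp) (x, hy x)).hasFDerivAt) h1
  have hL : fderiv ℝ (onG b hy) x (ei j) = 2 * (Real.pi : ℂ) * Complex.I *
      (U (mc j b) (x, h) + ((x j / h : ℝ) : ℂ) * U (mn b) (x, h)) := by
    rw [hcomp.fderiv]
    have e1 : ((fderiv ℝ (U b) (x, hy x)).comp
      ((ContinuousLinearMap.id ℝ (EE d)).prod (fderiv ℝ hy x))) (ei j) =
      fderiv ℝ (U b) (x, hy x) (ei j, fderiv ℝ hy x (ei j)) := rfl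
    rw [e1, hU2, hy2]
    congr 2
    rw [Finset.sum_eq_single j]
    · simp [ei, hh]
    · intro i _ hij
      simp [ei, hij]
    · intro hj
      exact absurd (Finset.mem_univ j) hj
  -- integration by parts
  set ψ : EE d → ℂ := fun ξ => e (inner ℝ x ξ + h * ‖ξ‖) * mn b ξ with hψ
  have hφ : ∀ ξ, fderiv ℝ ψ ξ (ei j) = 2 * (Real.pi : ℂ) * Complex.I *
      (((h : ℝ) : ℂ) * (e (inner ℝ x ξ + h * ‖ξ‖) * mc j b ξ) +
        ((x j : ℝ) : ℂ) * (e (inner ℝ x ξ + h * ‖ξ‖) * mn b ξ)) +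
        e (inner ℝ x ξ + h * ‖ξ‖) * pd j (mn b) ξ := by
    intro ξ
    rw [hψ, (phase_fderiv hmn x h j ξ).2]
    by_cases h0 : ξ = 0
    · have hb0 : b ξ = 0 := by
        by_contra hb0
        exact hb.2.2 (h0 ▸ subset_tsupport b hb0)
      have hmc0 : mc j b ξ = 0 := by
        unfold mc
        rw [hb0, mul_zero]
      have hmn0 : mn b ξ = 0 := by
        unfold mn
        rw [hb0, mul_zero]
      rw [hmc0, hmn0]
      ring
    · have h1 : ‖ξ‖ ≠ 0 := norm_ne_zero_iff.2 h0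
      have h2 : (((‖ξ‖⁻¹ * ξ j : ℝ)) : ℂ) * mn b ξ = mc j b ξ := by
        unfold mn mc
        have h3 : ((‖ξ‖ : ℝ) : ℂ) ≠ 0 := Complex.ofReal_ne_zero.2 h1
        push_cast
        field_simp
      rw [← h2]
      push_cast
      ring
  have i1 : Integrable (fun ξ : EE d => e (inner ℝ x ξ + h * ‖ξ‖) * mc j b ξ) :=
    sym_integrable' (hmc j) (x, h)
  have i2 : Integrable (fun ξ : EE d => e (inner ℝ x ξ + h * ‖ξ‖) * mn b ξ) :=
    sym_integrable' hmn (x, h)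
  have i3 : Integrable (fun ξ : EE d => e (inner ℝ x ξ + h * ‖ξ‖) * pd j (mn b) ξ) :=
    sym_integrable' (hpd j) (x, h)
  have i4 : Integrable (fun ξ : EE d => 2 * (Real.pi : ℂ) * Complex.I *
      (((h : ℝ) : ℂ) * (e (inner ℝ x ξ + h * ‖ξ‖) * mc j b ξ) +
        ((x j : ℝ) : ℂ) * (e (inner ℝ x ξ + h * ‖ξ‖) * mn b ξ))) :=
    ((i1.const_mul _).add (i2.const_mul _)).const_mul _
  have hint : ∫ ξ, fderiv ℝ ψ ξ (ei j) = 0 := by
    have hd' : Integrable (fun ξ => fderiv ℝ ψ ξ (ei j)) := by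
      have : (fun ξ => fderiv ℝ ψ ξ (ei j)) = fun ξ => 2 * (Real.pi : ℂ) * Complex.I *
      (((h : ℝ) : ℂ) * (e (inner ℝ x ξ + h * ‖ξ‖) * mc j b ξ) +
        ((x j : ℝ) : ℂ) * (e (inner ℝ x ξ + h * ‖ξ‖) * mn b ξ)) +
        e (inner ℝ x ξ + h * ‖ξ‖) * pd j (mn b) ξ := funext hφ
      rw [this]
      exact i4.add i3
    have h1 := integral_mul_fderiv_eq_neg_fderiv_mul_of_integrable (μ := (volume : Measure (EE d)))
      (f := fun _ => (1 : ℂ)) (g := ψ) (v := ei j) (by simp) (by simpa using hd')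
      (by simpa using i2) (fun ξ _ => differentiableAt_const _)
      (fun ξ _ => (phase_fderiv hmn x h j ξ).1)
    simpa using h1
  have hsum : ∫ ξ, fderiv ℝ ψ ξ (ei j) = 2 * (Real.pi : ℂ) * Complex.I *
      (((h : ℝ) : ℂ) * U (mc j b) (x, h) + ((x j : ℝ) : ℂ) * U (mn b) (x, h)) +
        U (pd j (mn b)) (x, h) := by
    rw [show (fun ξ => fderiv ℝ ψ ξ (ei j)) = _ from funext hφ, integral_add i4 i3,
      integral_const_mul, integral_add (i1.const_mul _) (i2.const_mul _), integral_const_mul,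
      integral_const_mul]
    rfl
  rw [hint] at hsum
  rw [hL]
  have hhc : ((h : ℝ) : ℂ) ≠ 0 := Complex.ofReal_ne_zero.2 hpos.ne'
  have e3 : ((h : ℝ) : ℂ) * (2 * (Real.pi : ℂ) * Complex.I *
      (U (mc j b) (x, h) + ((x j / h : ℝ) : ℂ) * U (mn b) (x, h))) =
      2 * (Real.pi : ℂ) * Complex.I *
      (((h : ℝ) : ℂ) * U (mc j b) (x, h) + ((x j : ℝ) : ℂ) * U (mn b) (x, h)) := by
    push_cast
    field_simp
  rw [e3]
  exact eq_neg_of_add_eq_zero_left hsum.symm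

end Pool.Agent.H54.C1
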