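import Pool.Agent.H94.C1.Targets
import Pool.Agent.H19.KL.SHV

/-! Row JEN of the board `c1_modules` (MP_ee74d2_an). -/

set_option autoImplicit false

namespace Pool.Agent.H54.C1

open MeasureTheory Set Filter Pool.Agent.H82.KL Pool.Agent.H94.C1
open scoped ENNReal NNReal Topology

/-- Jensen's inequality for a measure of finite or infinite mass -/
theorem jensen {α : Type*} [MeasurableSpace α] (ν : Measure α) (g : α → ℝ≥0∞) (q : ℝ) (hq : 1 ≤ q)
    (hg : Measurable g) :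
    (∫⁻ a, g a ∂ν) ^ q ≤ (ν univ) ^ (q - 1) * ∫⁻ a, g a ^ q ∂ν := by
  rcases hq.eq_or_lt with h | h
  · subst h
    simp
  · have hc : q.HolderConjugate (q / (q - 1)) := Real.HolderConjugate.conjExponent h
    have h1 := ENNReal.lintegral_mul_le_Lp_mul_Lq ν hc hg.aemeasurable
      (aemeasurable_const (b := (1 : ℝ≥0∞)))
    have h2 : (∫⁻ a, (g * (fun _ => 1 : α → ℝ≥0∞)) a ∂ν) = ∫⁻ a, g a ∂ν := by
      congr 1
      funext a
      simp
    rw [h2] at h1
    have hq0 : 0 < q := by linarith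
    calc (∫⁻ a, g a ∂ν) ^ q
        ≤ ((∫⁻ a, g a ^ q ∂ν) ^ (1 / q) *
            (∫⁻ _a, (1 : ℝ≥0∞) ^ (q / (q - 1)) ∂ν) ^ (1 / (q / (q - 1)))) ^ q :=
          ENNReal.rpow_le_rpow h1 hq0.le
      _ = (ν univ) ^ (q - 1) * ∫⁻ a, g a ^ q ∂ν := by
          rw [ENNReal.mul_rpow_of_nonneg _ _ hq0.le, ← ENNReal.rpow_mul, ← ENNReal.rpow_mul,
            ENNReal.one_rpow, lintegral_one]
          have e1 : 1 / q * q = 1 := by field_simp
          have e2 : 1 / (q / (q - 1)) * q = q - 1 := by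
            have : q - 1 ≠ 0 := by linarith
            field_simp
          rw [e1, e2, ENNReal.rpow_one, mul_comm]

/-- the weight -/
noncomputable def kk {d : ℕ} (z : EE d × ℝ) (y : EE d) : ℝ≥0∞ :=
  ENNReal.ofReal (((1 + abs (‖z.1 - y‖ - z.2)) ^ (d + 8))⁻¹)

theorem measurable_kk {d : ℕ} (z : EE d × ℝ) : Measurable (kk z) := by
  unfold kk
  refine ENNReal.measurable_ofReal.comp (Continuous.measurable ?_)
  refine Continuous.inv₀ (by fun_prop) fun y => ?_
  positivity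

theorem mass_kk (d : ℕ) (hd : 1 ≤ d) : ∃ C : ℝ≥0, ∀ (R : ℝ) (z : EE d × ℝ), 1 ≤ R → R ≤ z.2 →
    z.2 ≤ 2 * R → ∫⁻ y, kk z y ≤ C * ENNReal.ofReal (R ^ ((d : ℝ) - 1)) := by
  obtain ⟨C, hC⟩ := Pool.Agent.H19.KL.shv_main d hd
  have hS : ∑' n : ℕ, ENNReal.ofReal (((1 + (n : ℝ)) ^ 8)⁻¹) ≠ ⊤ := by
    have h1 : Summable fun n : ℕ => (((1 + (n : ℝ)) ^ 8)⁻¹) := by
      have h2 := (summable_nat_add_iff 1).2 (Real.summable_nat_pow_inv.2 (by norm_num : 1 < 8))
      refine h2.congr fun n => ?_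
      push_cast
      rw [add_comm]
    rw [← ENNReal.ofReal_tsum_of_nonneg (fun n => by positivity) h1]
    exact ENNReal.ofReal_ne_top
  lift (∑' n : ℕ, ENNReal.ofReal (((1 + (n : ℝ)) ^ 8)⁻¹)) to ℝ≥0 using hS with S hS'
  refine ⟨C * S, fun R z hR h1 h2 => ?_⟩
  have hp : ∀ y, kk z y ≤ ∑' n : ℕ, ENNReal.ofReal (((1 + (n : ℝ)) ^ (d + 8))⁻¹) *
      ({y : EE d | |‖y - z.1‖ - z.2| ≤ (n : ℝ) + 1}).indicator 1 y := by
    intro y
    set ρ : ℝ := |‖y - z.1‖ - z.2| with hρ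
    have hρ0 : 0 ≤ ρ := abs_nonneg _
    refine le_trans ?_ (ENNReal.le_tsum (Nat.floor ρ))
    have h3 : y ∈ {y : EE d | |‖y - z.1‖ - z.2| ≤ ((Nat.floor ρ : ℕ) : ℝ) + 1} := by
      show ρ ≤ _
      exact (Nat.lt_floor_add_one ρ).le
    rw [indicator_of_mem h3, Pi.one_apply, mul_one]
    unfold kk
    refine ENNReal.ofReal_le_ofReal ?_
    rw [norm_sub_rev z.1 y, ← hρ]
    refine inv_anti₀ (by positivity) (pow_le_pow_left₀ (by positivity) ?_ _)
    have := Nat.floor_le hρ0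
    linarith
  calc ∫⁻ y, kk z y ≤ ∫⁻ y, ∑' n : ℕ, ENNReal.ofReal (((1 + (n : ℝ)) ^ (d + 8))⁻¹) *
        ({y : EE d | |‖y - z.1‖ - z.2| ≤ (n : ℝ) + 1}).indicator 1 y := lintegral_mono hp
    _ = ∑' n : ℕ, ENNReal.ofReal (((1 + (n : ℝ)) ^ (d + 8))⁻¹) *
        volume {y : EE d | |‖y - z.1‖ - z.2| ≤ (n : ℝ) + 1} := by
        have hm : ∀ n : ℕ, MeasurableSet {y : EE d | |‖y - z.1‖ - z.2| ≤ (n : ℝ) + 1} := fun n =>
          (isClosed_le (by fun_prop) (by fun_prop)).measurableSet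
        rw [lintegral_tsum]
        · congr 1
          funext n
          rw [lintegral_const_mul _ (measurable_one.indicator (hm n)), lintegral_indicator_one (hm n)]
        · intro n
          exact ((measurable_one.indicator (hm n)).const_mul _).aemeasurable
    _ ≤ ∑' n : ℕ, (C : ℝ≥0∞) * ENNReal.ofReal (R ^ ((d : ℝ) - 1)) *
        ENNReal.ofReal (((1 + (n : ℝ)) ^ 8)⁻¹) := by
        refine ENNReal.tsum_le_tsum fun n => ?_
        have hn : (1 : ℝ) ≤ 1 + (n : ℝ) := by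
          have : (0 : ℝ) ≤ (n : ℝ) := Nat.cast_nonneg n
          linarith
        have hRn : 1 ≤ R * (1 + (n : ℝ)) := by nlinarith
        have h3 := hC (R * (1 + (n : ℝ))) z.2 ((n : ℝ) + 1) z.1 hRn (by linarith) (by nlinarith)
          (by positivity) (by nlinarith)
        calc ENNReal.ofReal (((1 + (n : ℝ)) ^ (d + 8))⁻¹) *
              volume {y : EE d | |‖y - z.1‖ - z.2| ≤ (n : ℝ) + 1}
            ≤ ENNReal.ofReal (((1 + (n : ℝ)) ^ (d + 8))⁻¹) * (C *
              ENNReal.ofReal ((R * (1 + (n : ℝ))) ^ ((d : ℝ) - 1) * ((n : ℝ) + 1))) :=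
              mul_le_mul_right h3 _
          _ = C * ENNReal.ofReal (((1 + (n : ℝ)) ^ (d + 8))⁻¹ *
              ((R * (1 + (n : ℝ))) ^ ((d : ℝ) - 1) * ((n : ℝ) + 1))) := by
              rw [ENNReal.ofReal_mul (p := ((1 + (n : ℝ)) ^ (d + 8))⁻¹) (by positivity),
                mul_left_comm]
          _ = C * ENNReal.ofReal (R ^ ((d : ℝ) - 1) * ((1 + (n : ℝ)) ^ 8)⁻¹) := by
              congr 2
              rw [Real.mul_rpow (by linarith) (by linarith)]
              have e1 : (1 + (n : ℝ)) ^ ((d : ℝ) - 1) * ((n : ℝ) + 1) = (1 + (n : ℝ)) ^ d := by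
                rw [add_comm (n : ℝ) 1, ← Real.rpow_add_one (by linarith), sub_add_cancel,
                  Real.rpow_natCast]
              have e2 : R ^ ((d : ℝ) - 1) * (1 + (n : ℝ)) ^ ((d : ℝ) - 1) * ((n : ℝ) + 1) =
                  R ^ ((d : ℝ) - 1) * (1 + (n : ℝ)) ^ d := by rw [mul_assoc, e1]
              rw [e2, pow_add]
              have : (1 + (n : ℝ)) ≠ 0 := by linarith
              field_simp
          _ = (C : ℝ≥0∞) * ENNReal.ofReal (R ^ ((d : ℝ) - 1)) *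
              ENNReal.ofReal (((1 + (n : ℝ)) ^ 8)⁻¹) := by
              rw [ENNReal.ofReal_mul (by positivity), mul_assoc]
    _ = _ := by
        rw [ENNReal.tsum_mul_left, ← hS']
        push_cast
        ring

/-- Row JEN -/
theorem pf_JEN : T_JEN := by
  intro d q hd hq
  obtain ⟨C, hC⟩ := mass_kk d hd
  refine ⟨C ^ (q - 1), fun R g z hR h1 h2 hg => ?_⟩
  have hq1 : 0 ≤ q - 1 := by linarith
  have e1 : ∀ h : EE d → ℝ≥0∞, Measurable h →
      av h z = ∫⁻ y, h y ∂((volume : Measure (EE d)).withDensity (kk z)) := by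
    intro h hh
    rw [lintegral_withDensity_eq_lintegral_mul _ (measurable_kk z) hh]
    unfold av
    congr 1
    funext y
    rw [Pi.mul_apply, mul_comm]
    rfl
  have h3 := jensen ((volume : Measure (EE d)).withDensity (kk z)) g q hq hg
  rw [e1 g hg, e1 (fun y => g y ^ q) (hg.pow_const q)]
  refine h3.trans (mul_le_mul_left ?_ _)
  rw [withDensity_apply _ MeasurableSet.univ, Measure.restrict_univ]
  calc (∫⁻ y, kk z y) ^ (q - 1) ≤ (C * ENNReal.ofReal (R ^ ((d : ℝ) - 1))) ^ (q - 1) :=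
        ENNReal.rpow_le_rpow (hC R z hR h1 h2) hq1
    _ = _ := by
        rw [ENNReal.mul_rpow_of_nonneg _ _ hq1, ← ENNReal.coe_rpow_of_nonneg _ hq1,
          ENNReal.ofReal_rpow_of_nonneg (by positivity) hq1, ← Real.rpow_mul (by linarith)]

end Pool.Agent.H54.C1
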